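import Pool.Agent.H17.SCG.C3Q
import Pool.Agent.H24.SCG2.Stmts1

/-!
Project SCG2, module C3QZ: the end of the mixed case, modulo scalars.
-/

namespace Pool.Agent.H55.SCG2

open Matrix Pool.SCG Pool.Agent.H17.SCG

variable {F : Type} [Field F]

theorem one_mem_Zs : (1 : Cor F) ∈ Zs F :=
  ⟨1, one_pow 3, by rw [dg_one]; exact is_one⟩

theorem dg_scal (z : F) : dg z z z = z • (1 : M3 F) := by
  ext i j
  fin_cases i <;> fin_cases j <;> simp [dg]

theorem cj_Zs (P : SL3 F) {z : Cor F} (hz : z ∈ Zs F) : cj P z = z := by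
  obtain ⟨w, -, hw⟩ := hz
  have h1 := hw.cj_inner P
  have h2 : adjugate (P : M3 F) * dg w w w * (P : M3 F) = dg w w w := by
    rw [dg_scal, Matrix.mul_smul, Matrix.smul_mul, mul_one, adj_mul_self P.2]
  rw [h2] at h1
  exact h1.ext hw

theorem closure_back (P : SL3 F) {a b c d e : Cor F}
    (h : cj P e ∈ Subgroup.closure ({cj P a, cj P b, cj P c, cj P d} ∪ Zs F : Set (Cor F))) :
    e ∈ Subgroup.closure ({a, b, c, d} ∪ Zs F : Set (Cor F)) := by
  have hle : Subgroup.closure ({cj P a, cj P b, cj P c, cj P d} ∪ Zs F : Set (Cor F)) ≤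
      (Subgroup.closure ({a, b, c, d} ∪ Zs F : Set (Cor F))).map (cjE P).toMonoidHom := by
    rw [Subgroup.closure_le]
    intro y hy
    have hm : ∀ x : Cor F, x ∈ ({a, b, c, d} ∪ Zs F : Set (Cor F)) →
        cj P x ∈ (Subgroup.closure ({a, b, c, d} ∪ Zs F : Set (Cor F))).map
          (cjE P).toMonoidHom := fun x hx => mem_map_cj.2 (Subgroup.subset_closure hx)
    rcases hy with hy | hy
    · simp only [Set.mem_insert_iff, Set.mem_singleton_iff] at hy
      rcases hy with rfl | rfl | rfl | rfl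
      · exact hm a (by simp)
      · exact hm b (by simp)
      · exact hm c (by simp)
      · exact hm d (by simp)
    · have h1 := hm y (Or.inr hy)
      rw [cj_Zs P hy] at h1
      exact h1
  exact mem_map_cj.1 (hle h)

/-- the exceptional cases: `ρ = s²`, `x = s x'` -/
theorem exc (hE12 : E12Stmt) [Finite F] (hF : OddP F) (h2 : (2 : F) ≠ 0)
    (a b c d e : Cor F) (s σ x' : F) (hs : s ≠ 0) (hσ : σ ≠ 0) (hx : 2 + x' ^ 2 ≠ 0)
    (hord : orderOf (s ^ 2 / σ) = 3) (ha : Is a true (Q0 F)) (hb : Is b false (dg 1 (-1) (-1)))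
    (hd : Is d true (dg σ 1 σ⁻¹)) (he : Is e true (dg (s ^ 2) 1 (s ^ 2)⁻¹))
    (hc : (Is c false (hQ (s ^ 2) (s * x')) ∧ x' = 1) ∨
      (Is c true ((hQ (s ^ 2) (s * x')).transpose * Q0 F) ∧ x' = 2)) :
    e ∈ Subgroup.closure ({a, b, c, d} ∪ Zs F : Set (Cor F)) := by
  have hP : (dg s⁻¹ 1 s : M3 F).det = 1 := by
    rw [dg_det, mul_one, inv_mul_cancel₀ hs]
  set P : SL3 F := ⟨dg s⁻¹ 1 s, hP⟩ with hPdef
  have hPc : (P : M3 F) = dg s⁻¹ 1 s := rfl
  have hPa : adjugate (P : M3 F) = dg s 1 s⁻¹ := by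
    rw [hPc]
    exact adj_dg _ _ (inv_mul_cancel₀ hs)
  -- the root of unity
  set τ : F := σ / s ^ 2 with hτ
  have hτ0 : τ ≠ 0 := div_ne_zero hσ (pow_ne_zero 2 hs)
  have hτ3 : τ ^ 3 = 1 := by
    have h1 : (s ^ 2 / σ) ^ 3 = 1 := by rw [← hord, pow_orderOf_eq_one]
    have h3 : τ = (s ^ 2 / σ)⁻¹ := by rw [hτ, inv_div]
    rw [h3, inv_pow, h1, inv_one]
  have hτ1 : τ ≠ 1 := by
    intro h
    have h3 : s ^ 2 / σ = 1 := by
      have : s ^ 2 / σ = τ⁻¹ := by rw [hτ, inv_div]
      rw [this, h, inv_one]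
    rw [h3, orderOf_one] at hord
    omega
  have hτ2 : τ ^ 2 + τ + 1 = 0 := by
    have h1 : (τ - 1) * (τ ^ 2 + τ + 1) = 0 := by linear_combination hτ3
    rcases mul_eq_zero.1 h1 with h | h
    · exact absurd (sub_eq_zero.1 h) hτ1
    · exact h
  have ha' : Is (cj P a) true (Q0 F) := by
    have h1 := ha.cj_outer P
    have h3 : (P : M3 F).transpose * Q0 F * (P : M3 F) = Q0 F := by
      rw [hPc, dg_transpose, dg_mul_Q0]
      ext i j
      fin_cases i <;> fin_cases j <;>
        simp [dg, Q0, Matrix.mul_apply, Fin.sum_univ_three, hs]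
    rwa [h3] at h1
  have hb' : Is (cj P b) false (dg 1 (-1) (-1)) := by
    have h1 := hb.cj_inner P
    have h3 : adjugate (P : M3 F) * dg 1 (-1) (-1) * (P : M3 F) = dg 1 (-1) (-1) := by
      rw [hPa, hPc, dg_mul, dg_mul]
      congr 1 <;> field_simp
    rwa [h3] at h1
  have hd' : Is (cj P d) true (dg τ 1 τ⁻¹) := by
    have h1 := hd.cj_outer P
    have h3 : (P : M3 F).transpose * dg σ 1 σ⁻¹ * (P : M3 F) = dg τ 1 τ⁻¹ := by
      rw [hPc, dg_transpose, dg_mul, dg_mul, hτ]
      congr 1 <;> field_simp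
    rwa [h3] at h1
  have he' : Is (cj P e) true (dg 1 1 1) := by
    have h1 := he.cj_outer P
    have h3 : (P : M3 F).transpose * dg (s ^ 2) 1 (s ^ 2)⁻¹ * (P : M3 F) = dg 1 1 1 := by
      rw [hPc, dg_transpose, dg_mul, dg_mul]
      congr 1 <;> field_simp
    rwa [h3] at h1
  have hD : 2 * s ^ 2 + (s * x') ^ 2 = s ^ 2 * (2 + x' ^ 2) := by ring
  have hM : adjugate (P : M3 F) * hQ (s ^ 2) (s * x') * (P : M3 F) = hQ 1 x' := by
    rw [hPa, hPc]
    unfold hQ
    rw [Matrix.mul_smul, Matrix.smul_mul, hD]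
    ext i j
    fin_cases i <;> fin_cases j <;> simp [dg] <;> field_simp
  refine closure_back P (hE12 F hF (cj P a) (cj P b) (cj P c) (cj P d) (cj P e) τ hτ2 ha' hb' hd'
    he' ?_)
  rcases hc with ⟨hc, hx1⟩ | ⟨hc, hx1⟩
  · left
    have h1 := hc.cj_inner P
    rw [hM, hx1] at h1
    exact h1
  · right
    have h1 := hc.cj_outer P
    have h3 : (P : M3 F).transpose * ((hQ (s ^ 2) (s * x')).transpose * Q0 F) * (P : M3 F) =
        (hQ 1 x').transpose * Q0 F := by
      have e1 : (P : M3 F).transpose * Q0 F * (P : M3 F) = Q0 F := by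
        have h4 := ha.cj_outer P
        exact (h4.uniq ha').2
      have e2 : (adjugate (P : M3 F)).transpose * (P : M3 F).transpose = 1 := by
        rw [← Matrix.transpose_mul, mul_adj_self P.2, Matrix.transpose_one]
      rw [← hM, Matrix.transpose_mul, Matrix.transpose_mul]
      calc (P : M3 F).transpose * ((hQ (s ^ 2) (s * x')).transpose * Q0 F) * (P : M3 F)
          = (P : M3 F).transpose * (hQ (s ^ 2) (s * x')).transpose * (Q0 F * (P : M3 F)) := by
            simp only [mul_assoc]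
        _ = (P : M3 F).transpose * (hQ (s ^ 2) (s * x')).transpose *
            (((adjugate (P : M3 F)).transpose * (P : M3 F).transpose) * (Q0 F * (P : M3 F))) := by
            rw [e2, one_mul]
        _ = (P : M3 F).transpose * ((hQ (s ^ 2) (s * x')).transpose *
            (adjugate (P : M3 F)).transpose) *
            ((P : M3 F).transpose * Q0 F * (P : M3 F)) := by
            simp only [mul_assoc]
        _ = (P : M3 F).transpose * ((hQ (s ^ 2) (s * x')).transpose *
            (adjugate (P : M3 F)).transpose) * Q0 F := by rw [e1]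
    rw [h3, hx1] at h1
    exact h1

theorem c3qz_thm (hLP : LPStmt) (hPHI : PHIStmt) (hSIDE : SIDEStmt) (hE12 : E12Stmt)
    (hPAR : PARStmt) : C3QZStmt := by
  intro F _ _ hF a b c d e ρ σ x hs hρ hσ hx ha hb hd he hc
  obtain ⟨p, -, -, -, h2, h3F, -, -, -⟩ := hPAR F hF
  have hm1 : (-1 : F) ≠ 1 := by
    intro h
    apply h2
    linear_combination -h
  obtain ⟨Φ, hΦ1, hΦ2⟩ := hPHI F h2
  have ha2 : a * a = 1 := hs.ia.2
  -- the element hp
  have hab : Is (a * b) true !![0, 0, -1; 0, 1, 0; 1, 0, 0] := by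
    have := ha.mul_inner hb
    have e1 : Q0 F * dg 1 (-1) (-1) = !![0, 0, -1; 0, 1, 0; 1, 0, 0] := by
      ext i j
      fin_cases i <;> fin_cases j <;> simp [dg, Q0, Matrix.mul_apply, Fin.sum_univ_three]
    rwa [e1] at this
  have hp : Is (a * b * (a * b)) false (dg (-1) 1 (-1)) := by
    have e1 : (!![0, 0, -1; 0, 1, 0; 1, 0, 0] : M3 F) * !![0, 0, 1; 0, 1, 0; -1, 0, 0] = 1 := by
      ext i j
      fin_cases i <;> fin_cases j <;> simp [Matrix.mul_apply, Fin.sum_univ_three]
    have := hab.mul_outer' hab e1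
    have e2 : (!![0, 0, 1; 0, 1, 0; -1, 0, 0] : M3 F).transpose * !![0, 0, -1; 0, 1, 0; 1, 0, 0]
        = dg (-1) 1 (-1) := by
      ext i j
      fin_cases i <;> fin_cases j <;>
        simp [dg, Matrix.mul_apply, Fin.sum_univ_three, Matrix.transpose_apply]
    rw [e2] at this
    simpa using this
  have haab : a ∈ Subgroup.closure ({a, b} ∪ Zs F : Set (Cor F)) :=
    Subgroup.subset_closure (by simp)
  have hbab : b ∈ Subgroup.closure ({a, b} ∪ Zs F : Set (Cor F)) :=
    Subgroup.subset_closure (by simp)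
  have hpab : a * b * (a * b) ∈ Subgroup.closure ({a, b} ∪ Zs F : Set (Cor F)) :=
    Subgroup.mul_mem _ (Subgroup.mul_mem _ haab hbab) (Subgroup.mul_mem _ haab hbab)
  have hpZ : a * b * (a * b) ∉ Zs F := by
    rintro ⟨z, -, hz⟩
    have h1 := dg_inj (hp.uniq hz).2
    exact hm1 (h1.1.trans h1.2.1.symm)
  -- the element h3 = e * a
  have h3 : Is (e * a) false (h3m ρ) := by
    have e1 : dg ρ 1 ρ⁻¹ * dg ρ⁻¹ 1 ρ = 1 := by
      rw [dg_mul, mul_inv_cancel₀ hρ, inv_mul_cancel₀ hρ, mul_one, dg_one]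
    have := he.mul_outer' ha e1
    rw [dg_transpose, dg_mul_Q0] at this
    simpa [h3m] using this
  -- the element de
  have hde : Is (d * e) false (dg (ρ / σ) 1 (σ / ρ)) := by
    have e1 : dg σ 1 σ⁻¹ * dg σ⁻¹ 1 σ = 1 := by
      rw [dg_mul, mul_inv_cancel₀ hσ, inv_mul_cancel₀ hσ, mul_one, dg_one]
    have := hd.mul_outer' he e1
    rw [dg_transpose, dg_mul] at this
    have e2 : σ⁻¹ * ρ = ρ / σ := by field_simp
    have e3 : σ * ρ⁻¹ = σ / ρ := by field_simp
    rw [e2, e3, mul_one] at this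
    simpa using this
  have hfin : IsOfFinOrder (ρ / σ) := by
    have hne : ρ / σ ≠ 0 := div_ne_zero hρ hσ
    have h1 : IsOfFinOrder (Units.mk0 _ hne) := isOfFinOrder_of_finite _
    exact (Units.isOfFinOrder_val.2 h1)
  have hpos : 0 < orderOf (ρ / σ) := orderOf_pos_iff.2 hfin
  -- the closures
  set C : Subgroup (Cor F) := Subgroup.closure ({c, d, e} ∪ Zs F : Set (Cor F)) with hCdef
  have haC : a ∉ C := by
    intro h
    apply hs.v2
    refine Subgroup.closure_mono ?_ h
    intro y hy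
    simp only [Set.mem_union, Set.mem_insert_iff, Set.mem_singleton_iff] at hy ⊢
    tauto
  have hcC : c ∈ C := Subgroup.subset_closure (by simp)
  have hdC : d ∈ C := Subgroup.subset_closure (by simp)
  have heC : e ∈ C := Subgroup.subset_closure (by simp)
  -- the contradiction
  have key : ∀ g : SL3 F, (g : Matrix (Fin 3) (Fin 3) F) = dg (-1) 1 (-1) →
      (inn g ∈ C ∨ inn g * a ∈ C) → False := by
    intro g hg hgX
    have hgp : inn g = a * b * (a * b) := (inn_is g hg).ext hp
    rcases hgX with h | h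
    · rw [hgp] at h
      exact hpZ (hs.v3 _ hpab h)
    · rw [hgp] at h
      obtain ⟨z, -, hz⟩ := hs.v3 _ (Subgroup.mul_mem _ hpab haab) h
      have h4 := hp.mul_outer ha
      have := (h4.uniq hz).1
      simp at this
  -- g0
  obtain ⟨g0, hg0⟩ := exists_gl (F := F) (-x) 2 ρ x (by
    intro h
    apply hx
    linear_combination -h)
  have hΦg0 : Is (inn (Φ g0)) false (hQ ρ x) := by
    refine inn_is _ ?_
    rw [hΦ1 g0 _ _ _ _ hg0]
    have e1 : -x * x - 2 * ρ = -(2 * ρ + x ^ 2) := by ring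
    rw [e1, inv_neg]
    unfold hQ
    rw [neg_smul, ← smul_neg]
    congr 1
    ext i j
    have h24 : (2 : F)⁻¹ * 4 = 2 := by
      have : (4 : F) = 2 * 2 := by norm_num
      rw [this, ← mul_assoc, inv_mul_cancel₀ h2, one_mul]
    fin_cases i <;> fin_cases j <;> simp <;> first | ring1 | linear_combination h24
  have hcg : c = inn (Φ g0) ∨ c = inn (Φ g0) * a := by
    rcases hc with hc | hc
    · exact Or.inl (hc.ext hΦg0)
    · right
      rw [← hΦ2 g0 a ha]
      have h1 : Is (a * inn (Φ g0)) true (Q0 F * hQ ρ x) := ha.mul_inner hΦg0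
      rw [← hQ_Q0] at h1
      exact hc.ext h1
  -- x = 0
  have hx0 : x ≠ 0 := by
    intro hx0
    subst hx0
    have h4 : Is (inn (Φ g0) * (a * b * (a * b))) false (h3m ρ) := by
      have := hΦg0.mul_inner hp
      have e1 : hQ ρ 0 * dg (-1) 1 (-1) = h3m ρ := by
        ext i j
        fin_cases i <;> fin_cases j <;>
          simp [hQ, dg, h3m, Matrix.mul_apply, Fin.sum_univ_three] <;> field_simp
      rwa [e1] at this
    have h5 : inn (Φ g0) * (a * b * (a * b)) = e * a := h4.ext h3
    have h6 : e = inn (Φ g0) * (a * b * (a * b)) * a := by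
      rw [h5, mul_assoc, ha2, mul_one]
    apply hs.v1
    have m1 : a ∈ Subgroup.closure ({a, b, c, d} ∪ Zs F : Set (Cor F)) :=
      Subgroup.subset_closure (by simp)
    have m2 : b ∈ Subgroup.closure ({a, b, c, d} ∪ Zs F : Set (Cor F)) :=
      Subgroup.subset_closure (by simp)
    have m3 : c ∈ Subgroup.closure ({a, b, c, d} ∪ Zs F : Set (Cor F)) :=
      Subgroup.subset_closure (by simp)
    have m4 : inn (Φ g0) ∈ Subgroup.closure ({a, b, c, d} ∪ Zs F : Set (Cor F)) := by
      rcases hcg with h | h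
      · rwa [← h]
      · have : inn (Φ g0) = c * a := by rw [h, mul_assoc, ha2, mul_one]
        rw [this]
        exact Subgroup.mul_mem _ m3 m1
    rw [h6]
    exact Subgroup.mul_mem _ (Subgroup.mul_mem _ m4 (Subgroup.mul_mem _
      (Subgroup.mul_mem _ m1 m2) (Subgroup.mul_mem _ m1 m2))) m1
  -- the order of λ is odd
  have hodd : Odd (orderOf (ρ / σ)) := by
    rw [← Nat.not_even_iff_odd]
    rintro ⟨m, hm⟩
    have hm0 : 0 < m := by omega
    have e1 : (ρ / σ) ^ m = -1 := by
      have h7 : ((ρ / σ) ^ m) ^ 2 = 1 := by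
        rw [← pow_mul, mul_two, ← hm, pow_orderOf_eq_one]
      rw [sq, mul_self_eq_one_iff] at h7
      rcases h7 with h8 | h8
      · exfalso
        have := orderOf_le_of_pow_eq_one hm0 h8
        omega
      · exact h8
    have e2 : (σ / ρ) ^ m = -1 := by
      have : σ / ρ = (ρ / σ)⁻¹ := by rw [inv_div]
      rw [this, inv_pow, e1]
      norm_num
    have h9 := hde.pow_dg m
    rw [e1, e2, one_pow] at h9
    have h10 : (d * e) ^ m = a * b * (a * b) := h9.ext hp
    apply hpZ
    apply hs.v3 _ hpab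
    rw [← h10]
    exact Subgroup.pow_mem _ (Subgroup.mul_mem _ hdC heC) m
  have hne1 : orderOf (ρ / σ) ≠ 1 := by
    intro h
    rw [orderOf_eq_one_iff] at h
    have h7 : σ / ρ = 1 := by
      rw [← inv_div, h, inv_one]
    rw [h, h7, dg_one] at hde
    have h8 : d * e = 1 := hde.ext is_one
    have h9 : d = e := by
      have := hs.ie.2
      calc d = d * (e * e) := by rw [this, mul_one]
        _ = e := by rw [← mul_assoc, h8, one_mul]
    exact hs.de 1 one_mem_Zs (by rw [h9, one_mul])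
  have hne3 : orderOf (ρ / σ) ≠ 3 := by
    intro h
    rcases hSIDE F h2 h3F C a c d e ρ σ x hρ hσ hx hx0 h ha hd he hc hcC hdC heC haC with
      ⟨g, hg, hgX⟩ | ⟨hcs, hx2⟩ | ⟨hcs, hx2⟩
    · exact key g hg hgX
    · apply hs.v1
      refine exc hE12 hF h2 a b c d e x σ 1 hx0 hσ ?_ ?_ ha hb hd ?_ ?_
      · have h5 : 2 * ρ + x ^ 2 = ρ * (2 + 1 ^ 2) := by
          rw [hx2]
          ring
        intro h6
        rw [h5, h6, mul_zero] at hx
        exact hx rfl
      · rw [hx2]
        exact h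
      · rw [hx2]
        exact he
      · left
        refine ⟨?_, rfl⟩
        rcases hc with hc | hc
        · rw [hx2, mul_one]
          exact hc
        · rw [hc.1] at hcs
          exact absurd hcs (by decide)
    · apply hs.v1
      have h4 : (4 : F) = 2 * 2 := by norm_num
      have hx2' : (x / 2) ^ 2 = ρ := by
        rw [div_pow, hx2]
        field_simp
        norm_num
      have hxx : x / 2 * 2 = x := by field_simp
      refine exc hE12 hF h2 a b c d e (x / 2) σ 2 (div_ne_zero hx0 h2) hσ ?_ ?_ ha hb hd ?_ ?_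
      · have h5 : 2 * ρ + x ^ 2 = ρ * (2 + 2 ^ 2) := by
          rw [hx2]
          ring
        intro h6
        rw [h5, h6, mul_zero] at hx
        exact hx rfl
      · rw [hx2']
        exact h
      · rw [hx2']
        exact he
      · right
        refine ⟨?_, rfl⟩
        rcases hc with hc | hc
        · rw [hc.1] at hcs
          exact absurd hcs (by decide)
        · rw [hx2', hxx]
          exact hc
  have h5 : 5 ≤ orderOf (ρ / σ) := by
    obtain ⟨k, hk⟩ := hodd
    omega
  -- the groups X and N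
  have hcomm : ∀ g, a * inn (Φ g) = inn (Φ g) * a := fun g => hΦ2 g a ha
  obtain ⟨x1, hx1⟩ := exists_gl (F := F) 0 (-2) ρ 0 (by
    intro h
    have : 2 * ρ = 0 := by linear_combination h
    rcases mul_eq_zero.1 this with h' | h'
    · exact h2 h'
    · exact hρ h')
  have hΦx1 : Is (inn (Φ x1)) false (h3m ρ) := by
    refine inn_is _ ?_
    rw [hΦ1 x1 _ _ _ _ hx1]
    ext i j
    fin_cases i <;> fin_cases j <;> simp [h3m] <;> field_simp
  have hx1e : inn (Φ x1) = e * a := hΦx1.ext h3
  obtain ⟨t, ht⟩ := exists_gl (F := F) (ρ / σ) 0 0 1 (by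
    rw [mul_one, mul_zero, sub_zero]
    exact div_ne_zero hρ hσ)
  have hΦt : Is (inn (Φ t)) false (dg (ρ / σ) 1 (σ / ρ)) := by
    refine inn_is _ ?_
    rw [hΦ1 t _ _ _ _ ht]
    ext i j
    fin_cases i <;> fin_cases j <;> simp [dg] <;> field_simp
  have hte : inn (Φ t) = d * e := hΦt.ext hde
  obtain ⟨g, hgX, hg⟩ := hLP F h2 (XG Φ a ha2 hcomm C) (NG Φ C)
    (by
      intro g hg
      exact Or.inl hg)
    (by
      intro g hg h hh hgN hhN
      have h1 : inn (Φ g) * a ∈ C := by
        rcases hg with h' | h'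
        · exact absurd h' hgN
        · exact h'
      have h4 : inn (Φ h) * a ∈ C := by
        rcases hh with h' | h'
        · exact absurd h' hhN
        · exact h'
      show inn (Φ (g * h)) ∈ C
      rw [map_mul, inn_mul]
      have := C.mul_mem h1 h4
      rwa [mul_assoc, ← mul_assoc a, hcomm, mul_assoc, ha2, mul_one] at this)
    (by
      intro g k hg
      have hk : k ≠ 0 := by
        intro hk
        have hdet : (g : Matrix (Fin 2) (Fin 2) F).det ≠ 0 := by
          have := (Matrix.GeneralLinearGroup.det g).ne_zero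
          simpa using this
        rw [hg, Matrix.det_fin_two] at hdet
        simp [hk] at hdet
      have h1 : Is (inn (Φ g)) false (1 : M3 F) := by
        refine inn_is _ ?_
        rw [hΦ1 g _ _ _ _ hg]
        ext i j
        fin_cases i <;> fin_cases j <;> simp <;> field_simp
      have h4 : inn (Φ g) = 1 := h1.ext is_one
      show inn (Φ g) ∈ C
      rw [h4]
      exact C.one_mem)
    x1 t g0 (-2) ρ (ρ / σ)
    (by
      right
      rw [hx1e, mul_assoc, ha2, mul_one]
      exact heC)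
    (by
      intro h
      have h1 : inn (Φ x1) ∈ C := h
      rw [hx1e] at h1
      have h4 := C.mul_mem heC h1
      rw [← mul_assoc, hs.ie.2, one_mul] at h4
      exact haC h4)
    (by
      left
      rw [hte]
      exact C.mul_mem hdC heC)
    (by
      rcases hcg with h | h
      · left
        rw [← h]
        exact hcC
      · right
        rw [← h]
        exact hcC)
    hx1 ht hodd h5
    (by
      rw [hg0]
      simpa using hx0)
    (by
      rw [hg0]
      simpa using hρ)
  refine key (Φ g) ?_ hgX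
  rw [hΦ1 g _ _ _ _ hg]
  ext i j
  fin_cases i <;> fin_cases j <;> simp [dg]

end Pool.Agent.H55.SCG2
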