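import Pool.Agent.H24.SCG2.Base3
import Pool.Agent.H24.SCG2.Stmts4

/-!
Module DGT of the project SCG2: if all elements are cubes, the diagonal automorphisms are inner.
-/

namespace Pool.Agent.H55.SCG2

open Matrix Pool.SCG

variable {F : Type} [Field F]

theorem gis_diagAut (P : GL (Fin 3) F) : GIs (diagAut P) false (P : M3 F) :=
  ⟨P, rfl, by simp⟩

theorem conj_mem_graphExt (m : SL3 F) : MulAut.conj m ∈ GraphExt F :=
  Subgroup.subset_closure (Or.inl ⟨m, rfl⟩)

theorem diagAut_mem_graphExt (hF : ∀ x : F, ∃ y : F, y ^ 3 = x) (P : GL (Fin 3) F) :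
    diagAut P ∈ GraphExt F := by
  have hd : (P : M3 F).det ≠ 0 := (gis_diagAut P).det_ne
  obtain ⟨y, hy⟩ := hF (P : M3 F).det
  have hy0 : y ≠ 0 := by
    rintro rfl
    exact hd (by rw [← hy]; simp)
  have h1 : (y⁻¹ • (P : M3 F)).det = 1 := by
    rw [Matrix.det_smul, ← hy, Fintype.card_fin, ← mul_pow, inv_mul_cancel₀ hy0, one_pow]
  obtain ⟨m, hm⟩ : ∃ m : SL3 F, (m : M3 F) = y⁻¹ • (P : M3 F) := ⟨⟨_, h1⟩, rfl⟩
  have h2 : diagAut P = MulAut.conj m := (gis_diagAut P).ext (gis_conj m) y⁻¹ hm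
  rw [h2]
  exact conj_mem_graphExt _

theorem map_conj_self {A : Type} [Group A] (K : Subgroup A) (h : A) (hh : h ∈ K) :
    K.map (MulAut.conj h).toMonoidHom = K := by
  ext x
  rw [Subgroup.mem_map]
  constructor
  · rintro ⟨k, hk, rfl⟩
    show h * k * h⁻¹ ∈ K
    exact K.mul_mem (K.mul_mem hh hk) (K.inv_mem hh)
  · intro hx
    refine ⟨h⁻¹ * x * h, K.mul_mem (K.mul_mem (K.inv_mem hh) hx) hh, ?_⟩
    show h * (h⁻¹ * x * h) * h⁻¹ = x
    group

theorem dgt_thm : DGTStmt := by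
  intro F _ hF
  have h1 : DiagExt F = GraphExt F := by
    apply le_antisymm
    · unfold DiagExt
      rw [Subgroup.closure_le]
      rintro x (⟨P, rfl⟩ | hx)
      · exact diagAut_mem_graphExt hF P
      · rw [Set.mem_singleton_iff] at hx
        rw [hx]
        exact Subgroup.subset_closure (Or.inr rfl)
    · unfold GraphExt
      rw [Subgroup.closure_le]
      rintro x (⟨m, rfl⟩ | hx)
      · exact (gis_conj m).mem_diagExt
      · rw [Set.mem_singleton_iff] at hx
        rw [hx]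
        exact graphAut_mem
  have h2 : ∀ P : GL (Fin 3) F, GraphExtC P = GraphExt F := fun P =>
    map_conj_self _ _ (diagAut_mem_graphExt hF P)
  refine ⟨h1, h2, fun G => ⟨?_, ?_⟩⟩
  · rintro (h | ⟨P, h⟩)
    · rw [h, h1]
    · rw [h, h2 P]
  · intro h
    exact Or.inr ⟨1, by rw [h2 1, h]⟩

end Pool.Agent.H55.SCG2
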