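import Pool.Agent.H24.SCG2.Base3
import Pool.Agent.H75.SCG.EXC

/-!
Module EXCZ of the project SCG2: the third intersection condition modulo scalars.
-/

namespace Pool.Agent.H55.SCG2

open Matrix Pool.SCG Pool.Agent.H75.SCG

theorem excz_thm : EXCZStmt := by
  intro F _ τ hF h3 hτ hτ2 a b c d hG x hx hx'
  have haa : a * a = 1 := by
    rw [outer_sq_iff hG.ha]
    ext i j
    fin_cases i <;> fin_cases j <;> simp
  have hbb : b * b = 1 := by
    rw [inner_sq_iff hG.hb]
    ext i j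
    fin_cases i <;> fin_cases j <;> simp [Matrix.mul_apply, Fin.sum_univ_three]
  have hcc : c * c = 1 := by
    rw [inner_sq_iff hG.hc]
    ext i j
    fin_cases i <;> fin_cases j <;> simp [Matrix.mul_apply, Fin.sum_univ_three, hτ]
  obtain ⟨y₁, hy₁, z₁, hz₁, rfl⟩ := closure_zs _ x hx
  obtain ⟨y₂, hy₂, z₂, hz₂, he⟩ := closure_zs _ _ hx'
  obtain ⟨y, hy, t, ht, rfl⟩ := abc_le hτ hG haa hbb hcc y₁ hy₁
  have hle : Subgroup.closure ({b, c} : Set (Cor F)) ≤
      Subgroup.closure ({b, c, d} : Set (Cor F)) := by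
    apply Subgroup.closure_mono
    intro z hz
    rcases hz with rfl | rfl
    · simp
    · simp
  have hu : y⁻¹ * y₂ ∈ Subgroup.closure ({b, c, d} : Set (Cor F)) :=
    mul_mem (inv_mem (hle hy)) hy₂
  have htu : t = (y⁻¹ * y₂) * (z₂ * z₁⁻¹) := by
    calc t = y⁻¹ * (y * t * z₁) * z₁⁻¹ := by group
      _ = y⁻¹ * (y₂ * z₂) * z₁⁻¹ := by rw [he]
      _ = _ := by group
  obtain ⟨A, hA, hA'⟩ := bcd_le hτ h3 hG _ hu
  obtain ⟨z, hz, hZ⟩ := zs_mul hz₂ (zs_inv hz₁)
  obtain ⟨s, d1, d2, d3, h⟩ := ht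
  have htA := hA.mul_inner hZ
  rw [← htu] at htA
  obtain ⟨rfl, hAd⟩ := h.uniq htA
  have hdet := h.det
  rw [dg_det] at hdet
  have hne : τ + 1 ≠ 0 := by
    intro h0
    apply hτ2
    have : τ = -1 := by linear_combination h0
    rw [this]; ring
  have hB : (dg d1 d2 d3).transpose * BB τ * dg d1 d2 d3 = z ^ 2 • BB τ := by
    rw [hAd, dg_smul, Matrix.mul_smul, mul_one, Matrix.transpose_smul, Matrix.smul_mul,
      Matrix.smul_mul, Matrix.mul_smul, hA', smul_smul, pow_two]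
  have e11 := congrFun (congrFun hB 1) 1
  have e01 := congrFun (congrFun hB 0) 1
  have e12 := congrFun (congrFun hB 1) 2
  simp [BB, dg, Matrix.mul_apply, Fin.sum_univ_three] at e11 e01 e12
  have q11 : d2 * d2 = z ^ 2 := by linear_combination e11
  have q01 : d1 * d2 = z ^ 2 := by
    apply mul_left_cancel₀ hne
    linear_combination -e01
  have q12 : d2 * d3 = z ^ 2 := by
    apply mul_left_cancel₀ hne
    linear_combination -e12
  have hd20 : d2 ≠ 0 := by
    rintro rfl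
    rw [mul_zero, zero_mul] at hdet
    exact zero_ne_one hdet
  have hd1 : d1 = d2 := mul_right_cancel₀ hd20 (q01.trans q11.symm)
  have hd3 : d3 = d2 := mul_left_cancel₀ hd20 (q12.trans q11.symm)
  rw [hd1, hd3] at h hdet
  have htz : t ∈ Zs F := ⟨d2, by rw [← hdet]; ring, h⟩
  rw [mul_assoc]
  exact closure_zs_mem _ hy (zs_mul htz hz₁)

end Pool.Agent.H55.SCG2
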