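import Pool.Agent.H55.SCG2.DGT
import Mathlib.FieldTheory.Finite.Basic

/-!
Module EXQ of the project SCG2: existence in rank four in characteristic three (assembly).
-/

namespace Pool.Agent.H55.SCG2

open Matrix Pool.SCG

theorem range_four {G : Type} [Group G] (a b c d : G) :
    Set.range ![a, b, c, d] = ({a, b, c, d} : Set G) := by
  ext x
  simp only [Set.mem_range, Set.mem_insert_iff, Set.mem_singleton_iff]
  constructor
  · rintro ⟨i, rfl⟩
    fin_cases i <;> simp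
  · rintro (rfl | rfl | rfl | rfl)
    · exact ⟨0, rfl⟩
    · exact ⟨1, rfl⟩
    · exact ⟨2, rfl⟩
    · exact ⟨3, rfl⟩

/-- in characteristic three all elements of a finite field are cubes -/
theorem cubes_three (F : Type) [Field F] [Finite F] (h3 : (3 : F) = 0) :
    ∀ x : F, ∃ y : F, y ^ 3 = x := by
  have hinj : Function.Injective (fun y : F => y ^ 3) := by
    intro x y hxy
    have hxy' : x ^ 3 = y ^ 3 := hxy
    have h1 : (x - y) ^ 3 = 0 := by
      linear_combination hxy' + (x * y ^ 2 - x ^ 2 * y) * h3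
    have h2 : x - y = 0 := by
      by_contra h
      exact pow_ne_zero 3 h h1
    exact sub_eq_zero.1 h2
  intro x
  exact (Finite.injective_iff_surjective.1 hinj) x

/-- a subgroup with the inner automorphisms and an outer element is everything -/
theorem eq_graphExt (F : Type) [Field F] (hF : ∀ x : F, ∃ y : F, y ^ 3 = x)
    (H : Subgroup (MulAut (SL3 F))) (a : MulAut (SL3 F)) (A : Matrix (Fin 3) (Fin 3) F)
    (h1 : Inn F ≤ H) (h2 : H ≤ DiagExt F) (ha : a ∈ H) (hA : GIs a true A) :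
    H = GraphExt F := by
  have hD : DiagExt F = GraphExt F := (dgt_thm F hF).1
  apply le_antisymm (h2.trans hD.le)
  obtain ⟨P, -, rfl⟩ := hA
  rw [if_pos rfl] at ha
  have hP : diagAut P ∈ H := by
    have hd : (P : M3 F).det ≠ 0 := (gis_diagAut P).det_ne
    obtain ⟨y, hy⟩ := hF (P : M3 F).det
    have hy0 : y ≠ 0 := by
      rintro rfl
      exact hd (by rw [← hy]; simp)
    have h1' : (y⁻¹ • (P : M3 F)).det = 1 := by
      rw [Matrix.det_smul, ← hy, Fintype.card_fin, ← mul_pow, inv_mul_cancel₀ hy0, one_pow]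
    obtain ⟨m, hm⟩ : ∃ m : SL3 F, (m : M3 F) = y⁻¹ • (P : M3 F) := ⟨⟨_, h1'⟩, rfl⟩
    rw [(gis_diagAut P).ext (gis_conj m) y⁻¹ hm]
    exact h1 ⟨m, rfl⟩
  have hg : graphAut F ∈ H := by
    have := H.mul_mem ha (H.inv_mem hP)
    rwa [mul_inv_cancel_right] at this
  unfold GraphExt
  rw [Subgroup.closure_le]
  rintro x (⟨m, rfl⟩ | hx)
  · exact h1 ⟨m, rfl⟩
  · rw [Set.mem_singleton_iff] at hx
    rw [hx]
    exact hg

theorem exq_thm (hST4B : ST4BStmt) (hFEX : FEXStmt) (hFGR : FGRStmt) (hFGS : FGSStmt)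
    (hFGI : FGIStmt) (hFGG : FGGStmt) (hR3R : R3RStmt) (hR3S : R3SStmt) (hR3I : R3IStmt)
    (hR3G : R3GStmt) : EXQStmt := by
  intro F _ _ hodd
  obtain ⟨h3, hsq⟩ := hodd
  have hcu := cubes_three F h3
  by_cases hc3 : Nat.card F = 3
  · obtain ⟨a, b, c, d, hG, a1, b1, c1, d1, aa, bb, cc, dd, ac, ad, bd, ab, bc, cd⟩ := hR3R F h3
    obtain ⟨s1, s2⟩ := hR3S F h3 a b c d hG
    have i3 := hR3I F h3 hc3 a b c d hG
    have g := hR3G F h3 hc3 a b c d hG
    have hS := hST4B (MulAut (SL3 F)) a b c d a1 b1 c1 d1 aa bb cc dd ac ad bd ab bc cd s1 s2 i3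
    refine ⟨![a, b, c, d], hS, ?_⟩
    rw [range_four]
    refine eq_graphExt F hcu _ a _ g ?_ (Subgroup.subset_closure (by simp)) hG.ha
    rw [Subgroup.closure_le]
    rintro x (rfl | rfl | rfl | rfl)
    · exact hG.ha.mem_diagExt
    · exact hG.hb.mem_diagExt
    · exact hG.hc.mem_diagExt
    · exact hG.hd.mem_diagExt
  · obtain ⟨s, hP⟩ := hFEX F ⟨h3, hsq⟩ hc3
    obtain ⟨a, b, c, d, hG, a1, b1, c1, d1, aa, bb, cc, dd, ac, ad, bd, ab, bc, cd⟩ :=
      hFGR F s h3 hP
    obtain ⟨s1, s2⟩ := hFGS F s h3 hP a b c d hG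
    have i3 := hFGI F s h3 hP a b c d hG
    have g := hFGG F s h3 hP a b c d hG
    have hS := hST4B (MulAut (SL3 F)) a b c d a1 b1 c1 d1 aa bb cc dd ac ad bd ab bc cd s1 s2 i3
    refine ⟨![a, b, c, d], hS, ?_⟩
    rw [range_four]
    refine eq_graphExt F hcu _ a _ g ?_ (Subgroup.subset_closure (by simp)) hG.ha
    rw [Subgroup.closure_le]
    rintro x (rfl | rfl | rfl | rfl)
    · exact hG.ha.mem_diagExt
    · exact hG.hb.mem_diagExt
    · exact hG.hc.mem_diagExt
    · exact hG.hd.mem_diagExt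

end Pool.Agent.H55.SCG2
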